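import Pool.Agent.Lib.MP_4a15bf_mp.Final

set_option autoImplicit false

namespace Pool.Agent.Results.MP_4a15bf_mp.Disproof

open Pool.Agent.HeatSphere

/-- Negative answer to Q1 (in dimension `n = 3`): there is an admissible weight `W` on `S³` with
`C(W) > C(1)`. The first part records that the heat trace is the one of the question: for every
admissible weight there is an orthonormal basis of `L²(S³)` made of eigenfunctions of `Y_W`, and
for each such basis `Tr e^{-t Y_W}` is the sum of `e^{-t lam i}` over the basis. -/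
theorem result :
    (∀ W : Sph 3 → ℝ, IsWeight W →
      (∃ (ι : Type) (u : ι → Sph 3 → ℝ) (lam : ι → ℝ), Eigenbasis W u lam) ∧
      ∀ (ι : Type) (u : ι → Sph 3 → ℝ) (lam : ι → ℝ), Eigenbasis W u lam →
        ∀ t : ℝ, heatTr W t = ∑' i, ENNReal.ofReal (Real.exp (-t * lam i))) ∧
    IsWeight (fun _ : Sph 3 => (1 : ℝ)) ∧
    ∃ W : Sph 3 → ℝ, IsWeight W ∧ bestCst (fun _ : Sph 3 => (1 : ℝ)) < bestCst W := by
  refine ⟨fun W hW => ⟨exists_eigenbasis_fn hW.smooth hW.pos, fun ι u lam h t =>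
    heatTr_eq_tsum hW.smooth hW.pos h t⟩, ⟨isSmooth_const 1, fun _ => one_pos, by simp⟩, ?_⟩
  obtain ⟨W, hW, h⟩ := exists_weight
  refine ⟨W, hW, ?_⟩
  rw [bestCst_eq, bestCst_eq]
  exact lt_of_le_of_lt (bestC_one_le fun t ht N =>
    Pool.Agent.Lib.MP_4a15bf_mp.num_bound ht N) h

end Pool.Agent.Results.MP_4a15bf_mp.Disproof
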